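import Pool.Agent.Run7.h812.Torus.Bound

/-! Smooth isometric embeddings of tori in space are not stable, not even under perturbations of
the metric that are small together with all derivatives. -/

open MeasureTheory Set
open scoped ContDiff RealInnerProductSpace

namespace Pool.Agent.Results.MP_665542_gt.StretchedTorus

/-- A smooth Riemannian metric on the torus `T² = ℝ²/ℤ²`, written in the coordinates of `ℝ²`:
a smooth `ℤ²`-periodic field of positive definite symmetric matrices. -/
structure TorusMetric where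
  coeff : (Fin 2 → ℝ) → Matrix (Fin 2) (Fin 2) ℝ
  smooth : ∀ i j, ContDiff ℝ ∞ (fun x => coeff x i j)
  periodic : ∀ (k : Fin 2 → ℤ) (x : Fin 2 → ℝ), coeff (x + fun i => (k i : ℝ)) = coeff x
  posDef : ∀ x, (coeff x).PosDef

/-- `f : T² → ℝ³` (a `ℤ²`-periodic map on `ℝ²`) is of class `C^n` and pulls the Euclidean metric
back to `g`. -/
def IsIsometricImmersion (n : WithTop ℕ∞) (g : TorusMetric)
    (f : (Fin 2 → ℝ) → EuclideanSpace ℝ (Fin 3)) : Prop :=
  ContDiff ℝ n f ∧
  (∀ (k : Fin 2 → ℤ) (x : Fin 2 → ℝ), f (x + fun i => (k i : ℝ)) = f x) ∧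
  ∀ (x : Fin 2 → ℝ) (i j : Fin 2),
    ⟪fderiv ℝ f x (Pi.single i 1), fderiv ℝ f x (Pi.single j 1)⟫ = g.coeff x i j

/-- a smooth isometric embedding of `(T², g)` in `ℝ³`: a smooth isometric immersion that is
injective on `T²` -/
def IsIsometricEmbedding (g : TorusMetric) (f : (Fin 2 → ℝ) → EuclideanSpace ℝ (Fin 3)) : Prop :=
  IsIsometricImmersion ∞ g f ∧
  ∀ x y : Fin 2 → ℝ, f x = f y → ∃ k : Fin 2 → ℤ, y = x + fun i => (k i : ℝ)

/-- norm of the symmetric 2-tensor `h` with respect to the inner product `g`: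
the square root of `tr (g⁻¹ h g⁻¹ h)` -/
noncomputable def tensorNorm (g h : Matrix (Fin 2) (Fin 2) ℝ) : ℝ :=
  Real.sqrt (Matrix.trace (g⁻¹ * h * g⁻¹ * h))

/-- the standard torus of revolution with radii `R > r` -/
noncomputable def revTorus (R r : ℝ) (x : Fin 2 → ℝ) : EuclideanSpace ℝ (Fin 3) :=
  !₂[(R + r * Real.cos (2 * Real.pi * x 0)) * Real.cos (2 * Real.pi * x 1),
    (R + r * Real.cos (2 * Real.pi * x 0)) * Real.sin (2 * Real.pi * x 1),
    r * Real.sin (2 * Real.pi * x 0)]

/-! ### auxiliary -/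

noncomputable def bfun (R r : ℝ) (t : ℝ) : ℝ := 2 * Real.pi * (R + r * Real.cos (2 * Real.pi * t))

lemma bfun_contDiff (R r : ℝ) : ContDiff ℝ ∞ (bfun R r) := by
  unfold bfun
  fun_prop

lemma bfun_pos {R r : ℝ} (hr : 0 < r) (hR : r < R) (t : ℝ) : 0 < bfun R r t := by
  unfold bfun
  have := Real.neg_one_le_cos (2 * Real.pi * t)
  have hp := Real.pi_pos
  have : 0 < R + r * Real.cos (2 * Real.pi * t) := by nlinarith
  positivity

lemma bfun_deriv (R r : ℝ) : deriv (bfun R r) = fun t => -((2 * Real.pi) ^ 2 * r) * Real.sin (2 * Real.pi * t) := by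
  funext t
  have h1 : HasDerivAt (fun t : ℝ => 2 * Real.pi * t) (2 * Real.pi) t := by
    simpa using (hasDerivAt_id t).const_mul (2 * Real.pi)
  have h2 : HasDerivAt (bfun R r) (2 * Real.pi * (r * (-Real.sin (2 * Real.pi * t) * (2 * Real.pi)))) t :=
    ((((h1.cos).const_mul r).const_add R).const_mul (2 * Real.pi))
  rw [h2.deriv]; ring

lemma bfun_deriv2 (R r : ℝ) : deriv (deriv (bfun R r)) = fun t => -((2 * Real.pi) ^ 3 * r) * Real.cos (2 * Real.pi * t) := by
  rw [bfun_deriv]
  funext t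
  have h1 : HasDerivAt (fun t : ℝ => 2 * Real.pi * t) (2 * Real.pi) t := by
    simpa using (hasDerivAt_id t).const_mul (2 * Real.pi)
  have h2 := (h1.sin).const_mul (-((2 * Real.pi) ^ 2 * r))
  rw [h2.deriv]; ring

lemma int_cos (K a b : ℝ) : ∫ t in a..b, K * Real.cos (2 * Real.pi * t)
    = K / (2 * Real.pi) * Real.sin (2 * Real.pi * b) - K / (2 * Real.pi) * Real.sin (2 * Real.pi * a) := by
  have hp := Real.pi_pos.ne'
  apply intervalIntegral.integral_eq_sub_of_hasDerivAt
  · intro t _
    have h1 : HasDerivAt (fun t : ℝ => 2 * Real.pi * t) (2 * Real.pi) t := by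
      simpa using (hasDerivAt_id t).const_mul (2 * Real.pi)
    have h2 := (h1.sin).const_mul (K / (2 * Real.pi))
    have e : K / (2 * Real.pi) * (Real.cos (2 * Real.pi * t) * (2 * Real.pi)) = K * Real.cos (2 * Real.pi * t) := by
      field_simp
    rw [e] at h2
    exact h2
  · exact (by fun_prop : Continuous fun t => K * Real.cos (2 * Real.pi * t)).intervalIntegrable _ _

lemma int_max (K : ℝ) (hK : 0 ≤ K) : ∫ t in (0:ℝ)..1, max (K * Real.cos (2 * Real.pi * t)) 0 = K / Real.pi := by
  have hp := Real.pi_pos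
  have hc : Continuous fun t => max (K * Real.cos (2 * Real.pi * t)) 0 := by fun_prop
  have hi : ∀ a b, IntervalIntegrable (fun t => max (K * Real.cos (2 * Real.pi * t)) 0) volume a b :=
    fun a b => hc.intervalIntegrable _ _
  have s1 : ∫ t in (0:ℝ)..1, max (K * Real.cos (2 * Real.pi * t)) 0
      = (∫ t in (0:ℝ)..(1/4), max (K * Real.cos (2 * Real.pi * t)) 0)
      + (∫ t in (1/4:ℝ)..(3/4), max (K * Real.cos (2 * Real.pi * t)) 0)
      + ∫ t in (3/4:ℝ)..1, max (K * Real.cos (2 * Real.pi * t)) 0 := by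
    rw [intervalIntegral.integral_add_adjacent_intervals (hi _ _) (hi _ _),
      intervalIntegral.integral_add_adjacent_intervals (hi _ _) (hi _ _)]
  have a1 : ∫ t in (0:ℝ)..(1/4), max (K * Real.cos (2 * Real.pi * t)) 0
      = ∫ t in (0:ℝ)..(1/4), K * Real.cos (2 * Real.pi * t) := by
    apply intervalIntegral.integral_congr
    intro t ht
    rw [uIcc_of_le (by norm_num)] at ht
    have : 0 ≤ Real.cos (2 * Real.pi * t) := by
      apply Real.cos_nonneg_of_neg_pi_div_two_le_of_le
      · nlinarith [ht.1]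
      · nlinarith [ht.2]
    exact max_eq_left (mul_nonneg hK this)
  have a2 : ∫ t in (1/4:ℝ)..(3/4), max (K * Real.cos (2 * Real.pi * t)) 0 = 0 := by
    have : ∫ t in (1/4:ℝ)..(3/4), max (K * Real.cos (2 * Real.pi * t)) 0
        = ∫ t in (1/4:ℝ)..(3/4), (0:ℝ) := by
      apply intervalIntegral.integral_congr
      intro t ht
      rw [uIcc_of_le (by norm_num)] at ht
      have : Real.cos (2 * Real.pi * t) ≤ 0 := by
        apply Real.cos_nonpos_of_pi_div_two_le_of_le
        · nlinarith [ht.1]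
        · nlinarith [ht.2]
      exact max_eq_right (mul_nonpos_of_nonneg_of_nonpos hK this)
    rw [this]; simp
  have a3 : ∫ t in (3/4:ℝ)..1, max (K * Real.cos (2 * Real.pi * t)) 0
      = ∫ t in (3/4:ℝ)..1, K * Real.cos (2 * Real.pi * t) := by
    apply intervalIntegral.integral_congr
    intro t ht
    rw [uIcc_of_le (by norm_num)] at ht
    have : 0 ≤ Real.cos (2 * Real.pi * t) := by
      rw [← Real.cos_sub_two_pi]
      apply Real.cos_nonneg_of_neg_pi_div_two_le_of_le
      · nlinarith [ht.1]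
      · nlinarith [ht.2]
    exact max_eq_left (mul_nonneg hK this)
  rw [s1, a1, a2, a3, int_cos, int_cos]
  have e1 : Real.sin (2 * Real.pi * (1/4)) = 1 := by
    rw [show 2 * Real.pi * (1/4) = Real.pi / 2 by ring, Real.sin_pi_div_two]
  have e2 : Real.sin (2 * Real.pi * (3/4)) = -1 := by
    rw [show 2 * Real.pi * (3/4) = -(Real.pi / 2) + 2 * Real.pi by ring, Real.sin_add_two_pi,
      Real.sin_neg, Real.sin_pi_div_two]
  have e3 : Real.sin (2 * Real.pi * 1) = 0 := by rw [mul_one, Real.sin_two_pi]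
  have e4 : Real.sin (2 * Real.pi * 0) = 0 := by rw [mul_zero, Real.sin_zero]
  rw [e1, e2, e3, e4]
  field_simp
  ring

/-- the metric `a² dx₀² + (2π (R + r cos 2πx₀))² dx₁²` -/
noncomputable def metric (R r a : ℝ) (hr : 0 < r) (hR : r < R) (ha : 0 < a) : TorusMetric where
  coeff x := Matrix.diagonal ![a ^ 2, bfun R r (x 0) ^ 2]
  smooth := by
    have hb : ContDiff ℝ ∞ (fun x : Fin 2 → ℝ => bfun R r (x 0) ^ 2) :=
      ((bfun_contDiff R r).comp (contDiff_apply ℝ ℝ 0)).pow 2
    intro i j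
    fin_cases i <;> fin_cases j
    · simp only [Matrix.diagonal]; exact contDiff_const
    · simp [Matrix.diagonal]; exact contDiff_const
    · simp [Matrix.diagonal]; exact contDiff_const
    · simpa [Matrix.diagonal] using hb
  periodic := by
    intro k x
    have : bfun R r (x 0 + (k 0 : ℝ)) = bfun R r (x 0) := by
      unfold bfun
      rw [show 2 * Real.pi * (x 0 + (k 0 : ℝ)) = 2 * Real.pi * x 0 + k 0 * (2 * Real.pi) by ring,
        Real.cos_add_int_mul_two_pi]
    simp [this]
  posDef := by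
    intro x
    apply Matrix.PosDef.diagonal
    intro i
    fin_cases i
    · simpa using pow_pos ha 2
    · simpa using pow_pos (bfun_pos hr hR (x 0)) 2

lemma revTorus_contDiff (R r : ℝ) : ContDiff ℝ ∞ (revTorus R r) := by
  rw [contDiff_euclidean]
  intro i
  have h0 : ContDiff ℝ ∞ (fun x : Fin 2 → ℝ => x 0) := contDiff_apply ℝ ℝ 0
  have h1 : ContDiff ℝ ∞ (fun x : Fin 2 → ℝ => x 1) := contDiff_apply ℝ ℝ 1
  fin_cases i
  · simp only [revTorus]
    simp
    fun_prop
  · simp only [revTorus]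
    simp
    fun_prop
  · simp only [revTorus]
    simp
    fun_prop

lemma revTorus_periodic (R r : ℝ) (k : Fin 2 → ℤ) (x : Fin 2 → ℝ) :
    revTorus R r (x + fun i => (k i : ℝ)) = revTorus R r x := by
  unfold revTorus
  simp only [Pi.add_apply]
  rw [show 2 * Real.pi * (x 0 + (k 0 : ℝ)) = 2 * Real.pi * x 0 + k 0 * (2 * Real.pi) by ring,
    show 2 * Real.pi * (x 1 + (k 1 : ℝ)) = 2 * Real.pi * x 1 + k 1 * (2 * Real.pi) by ring]
  simp only [Real.cos_add_int_mul_two_pi, Real.sin_add_int_mul_two_pi]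

lemma fderiv_comp_apply {F : (Fin 2 → ℝ) → EuclideanSpace ℝ (Fin 3)} (hF : Differentiable ℝ F)
    (x v : Fin 2 → ℝ) (i : Fin 3) {c : ℝ} (h : HasDerivAt (fun t : ℝ => F (x + t • v) i) c 0) :
    (fderiv ℝ F x v) i = c := by
  have h1 : HasDerivAt (fun t : ℝ => x + t • v) v 0 := by
    have := ((hasDerivAt_id (0:ℝ)).smul_const v).const_add x
    simpa using this
  have h2 : HasFDerivAt F (fderiv ℝ F x) (x + (0:ℝ) • v) := by
    rw [zero_smul, add_zero]; exact (hF x).hasFDerivAt
  have h3 := h2.comp_hasDerivAt (0:ℝ) h1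
  have h4 := (EuclideanSpace.proj (𝕜 := ℝ) i : EuclideanSpace ℝ (Fin 3) →L[ℝ] ℝ).hasFDerivAt
    (x := F (x + (0:ℝ) • v)) |>.comp_hasDerivAt (0:ℝ) h3
  exact h4.unique h

lemma line_deriv (c s : ℝ) : HasDerivAt (fun t : ℝ => 2 * Real.pi * (s + t * c)) (2 * Real.pi * c) 0 := by
  have := (((hasDerivAt_id (0:ℝ)).mul_const c).const_add s).const_mul (2 * Real.pi)
  simpa using this

lemma revTorus_D0 (R r : ℝ) (x : Fin 2 → ℝ) : fderiv ℝ (revTorus R r) x (Pi.single 0 1)
    = !₂[-(2 * Real.pi * r) * Real.sin (2 * Real.pi * x 0) * Real.cos (2 * Real.pi * x 1),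
      -(2 * Real.pi * r) * Real.sin (2 * Real.pi * x 0) * Real.sin (2 * Real.pi * x 1),
      (2 * Real.pi * r) * Real.cos (2 * Real.pi * x 0)] := by
  have hF : Differentiable ℝ (revTorus R r) := (revTorus_contDiff R r).differentiable (by simp)
  have hl := line_deriv 1 (x 0)
  ext i
  apply fderiv_comp_apply hF
  fin_cases i
  · have h := ((((hl.cos).const_mul r).const_add R).mul_const (Real.cos (2 * Real.pi * x 1)))
    convert! h using 1
    · funext t; simp [revTorus]
    · change -(2 * Real.pi * r) * Real.sin (2 * Real.pi * x 0) * Real.cos (2 * Real.pi * x 1) = _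
      rw [zero_mul, add_zero]; ring
  · have h := ((((hl.cos).const_mul r).const_add R).mul_const (Real.sin (2 * Real.pi * x 1)))
    convert! h using 1
    · funext t; simp [revTorus]
    · change -(2 * Real.pi * r) * Real.sin (2 * Real.pi * x 0) * Real.sin (2 * Real.pi * x 1) = _
      rw [zero_mul, add_zero]; ring
  · have h := (hl.sin).const_mul r
    convert! h using 1
    change (2 * Real.pi * r) * Real.cos (2 * Real.pi * x 0) = _
    rw [zero_mul, add_zero]; ring

lemma revTorus_D1 (R r : ℝ) (x : Fin 2 → ℝ) : fderiv ℝ (revTorus R r) x (Pi.single 1 1)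
    = !₂[-(bfun R r (x 0)) * Real.sin (2 * Real.pi * x 1),
      (bfun R r (x 0)) * Real.cos (2 * Real.pi * x 1), 0] := by
  have hF : Differentiable ℝ (revTorus R r) := (revTorus_contDiff R r).differentiable (by simp)
  have hl := line_deriv 1 (x 1)
  ext i
  apply fderiv_comp_apply hF
  fin_cases i
  · have h := (hl.cos).const_mul (R + r * Real.cos (2 * Real.pi * x 0))
    convert! h using 1
    · funext t; simp [revTorus]
    · simp [bfun]; ring
  · have h := (hl.sin).const_mul (R + r * Real.cos (2 * Real.pi * x 0))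
    convert! h using 1
    · funext t; simp [revTorus]
    · simp [bfun]; ring
  · have h := hasDerivAt_const (0:ℝ) (r * Real.sin (2 * Real.pi * x 0))
    convert! h using 1
    · funext t; simp [revTorus]

lemma revTorus_isometric {R r : ℝ} (hr : 0 < r) (hR : r < R) (ha : 0 < 2 * Real.pi * r) :
    IsIsometricImmersion ∞ (metric R r (2 * Real.pi * r) hr hR ha) (revTorus R r) := by
  refine ⟨revTorus_contDiff R r, revTorus_periodic R r, ?_⟩
  intro x i j
  have s0 := Real.sin_sq_add_cos_sq (2 * Real.pi * x 0)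
  have s1 := Real.sin_sq_add_cos_sq (2 * Real.pi * x 1)
  fin_cases i <;> fin_cases j
  · simp only [Fin.zero_eta, revTorus_D0, Run7.h812.Torus.inner3, metric]
    simp [Matrix.diagonal]
    linear_combination (2 * Real.pi * r) ^ 2 * s0 + (2 * Real.pi * r) ^ 2 * Real.sin (2 * Real.pi * x 0) ^ 2 * s1
  · simp only [Fin.zero_eta, Fin.mk_one, revTorus_D0, revTorus_D1, Run7.h812.Torus.inner3, metric]
    simp [Matrix.diagonal]
    ring
  · simp only [Fin.zero_eta, Fin.mk_one, revTorus_D0, revTorus_D1, Run7.h812.Torus.inner3, metric]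
    simp [Matrix.diagonal]
    ring
  · simp only [Fin.mk_one, revTorus_D1, Run7.h812.Torus.inner3, metric]
    simp [Matrix.diagonal]
    linear_combination (bfun R r (x 0)) ^ 2 * s1

lemma exists_int_of_cos_sin {s t : ℝ} (hc : Real.cos (2 * Real.pi * s) = Real.cos (2 * Real.pi * t))
    (hs : Real.sin (2 * Real.pi * s) = Real.sin (2 * Real.pi * t)) : ∃ k : ℤ, t = s + k := by
  have h := Real.Angle.cos_sin_inj hc hs
  rw [Real.Angle.angle_eq_iff_two_pi_dvd_sub] at h
  obtain ⟨k, hk⟩ := h
  refine ⟨-k, ?_⟩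
  have hp := Real.pi_pos.ne'
  push_cast
  have : 2 * Real.pi * (s - t) = 2 * Real.pi * k := by linarith
  have := mul_left_cancel₀ (mul_ne_zero two_ne_zero hp) this
  linarith

lemma revTorus_inj {R r : ℝ} (hr : 0 < r) (hR : r < R) (x y : Fin 2 → ℝ)
    (h : revTorus R r x = revTorus R r y) : ∃ k : Fin 2 → ℤ, y = x + fun i => (k i : ℝ) := by
  have e0 : (R + r * Real.cos (2 * Real.pi * x 0)) * Real.cos (2 * Real.pi * x 1)
      = (R + r * Real.cos (2 * Real.pi * y 0)) * Real.cos (2 * Real.pi * y 1) := by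
    have := congrArg (fun v : EuclideanSpace ℝ (Fin 3) => v 0) h
    simpa [revTorus] using this
  have e1 : (R + r * Real.cos (2 * Real.pi * x 0)) * Real.sin (2 * Real.pi * x 1)
      = (R + r * Real.cos (2 * Real.pi * y 0)) * Real.sin (2 * Real.pi * y 1) := by
    have := congrArg (fun v : EuclideanSpace ℝ (Fin 3) => v 1) h
    simpa [revTorus] using this
  have e2 : r * Real.sin (2 * Real.pi * x 0) = r * Real.sin (2 * Real.pi * y 0) := by
    have := congrArg (fun v : EuclideanSpace ℝ (Fin 3) => v 2) h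
    simpa [revTorus] using this
  have e2' := mul_left_cancel₀ hr.ne' e2
  have px : 0 < R + r * Real.cos (2 * Real.pi * x 0) := by
    have := Real.neg_one_le_cos (2 * Real.pi * x 0); nlinarith
  have py : 0 < R + r * Real.cos (2 * Real.pi * y 0) := by
    have := Real.neg_one_le_cos (2 * Real.pi * y 0); nlinarith
  have sx := Real.sin_sq_add_cos_sq (2 * Real.pi * x 1)
  have sy := Real.sin_sq_add_cos_sq (2 * Real.pi * y 1)
  have hsq : (R + r * Real.cos (2 * Real.pi * x 0)) ^ 2 = (R + r * Real.cos (2 * Real.pi * y 0)) ^ 2 := by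
    have q0 := congrArg (fun t => t ^ 2) e0
    have q1 := congrArg (fun t => t ^ 2) e1
    simp only [mul_pow] at q0 q1
    linear_combination q0 + q1 - (R + r * Real.cos (2 * Real.pi * x 0)) ^ 2 * sx
      + (R + r * Real.cos (2 * Real.pi * y 0)) ^ 2 * sy
  have heq : R + r * Real.cos (2 * Real.pi * x 0) = R + r * Real.cos (2 * Real.pi * y 0) := by
    have := (sq_eq_sq₀ px.le py.le).mp hsq
    exact this
  have c0 : Real.cos (2 * Real.pi * x 0) = Real.cos (2 * Real.pi * y 0) :=
    mul_left_cancel₀ hr.ne' (by linarith)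
  rw [heq] at e0 e1
  have c1 := mul_left_cancel₀ py.ne' e0
  have s1 := mul_left_cancel₀ py.ne' e1
  obtain ⟨k0, hk0⟩ := exists_int_of_cos_sin c0 e2'
  obtain ⟨k1, hk1⟩ := exists_int_of_cos_sin c1 s1
  refine ⟨![k0, k1], ?_⟩
  funext i
  fin_cases i
  · simpa using hk0
  · simpa using hk1

lemma not_immersible {R r a : ℝ} (hr : 0 < r) (hR : r < R) (ha : 0 < a) (h : 2 * Real.pi * r < a) :
    ¬ ∃ f, IsIsometricImmersion 3 (metric R r a hr hR ha) f := by
  rintro ⟨f, hf, hper, hiso⟩
  let S : Run7.h812.Torus.Surf :=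
    { f := f
      a := a
      B := bfun R r
      hf := hf
      ha := ha
      hB := (bfun_contDiff R r).of_le (show ((3 : ℕ∞) : WithTop ℕ∞) ≤ ((⊤ : ℕ∞) : WithTop ℕ∞) from WithTop.coe_le_coe.mpr le_top)
      hBp := bfun_pos hr hR
      h00 := fun x => (hiso x 0 0).trans (by simp [metric])
      h01 := fun x => (hiso x 0 1).trans (by simp [metric])
      h11 := fun x => (hiso x 1 1).trans (by simp [metric]) }
  have hB : ∃ t, deriv (deriv S.B) t ≠ 0 := by
    refine ⟨0, ?_⟩
    change deriv (deriv (bfun R r)) 0 ≠ 0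
    rw [bfun_deriv2]
    simp
    exact hr.ne'
  have key := S.total ⟨hper⟩ hB
  have hc : ∀ t, S.c t = max (((2 * Real.pi) ^ 3 * r) * Real.cos (2 * Real.pi * t)) 0 := by
    intro t
    change max (- deriv (deriv (bfun R r)) t) 0 = _
    rw [bfun_deriv2]
    congr 1
    ring
  simp_rw [hc] at key
  have hp := Real.pi_pos
  rw [int_max _ (by positivity)] at key
  have e : (2 * Real.pi) ^ 3 * r / Real.pi = 4 * Real.pi * (2 * Real.pi * r) := by
    field_simp; ring
  rw [e] at key
  have : S.a ≤ 2 * Real.pi * r := le_of_mul_le_mul_left key (by positivity)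
  change a ≤ _ at this
  linarith

/-- **The standard tori of revolution: smooth isometric embeddability in `ℝ³` is lost under
arbitrarily small perturbations of the metric.** -/
theorem result : ∀ R r : ℝ, 0 < r → r < R →
    ∃ g₀ : TorusMetric, IsIsometricEmbedding g₀ (revTorus R r) ∧
      ∀ ε : ℝ, 0 < ε → ∃ g : TorusMetric,
        (∀ x, tensorNorm (g₀.coeff x) (g.coeff x - g₀.coeff x) < ε) ∧
        (∃ A : Matrix (Fin 2) (Fin 2) ℝ, (∀ x, g.coeff x = g₀.coeff x + A) ∧ ∀ i j, |A i j| < ε) ∧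
        ¬ ∃ f : (Fin 2 → ℝ) → EuclideanSpace ℝ (Fin 3), IsIsometricImmersion 3 g f := by
  intro R r hr hR
  have ha : 0 < 2 * Real.pi * r := by have := Real.pi_pos; positivity
  refine ⟨metric R r (2 * Real.pi * r) hr hR ha,
    ⟨revTorus_isometric hr hR ha, revTorus_inj hr hR⟩, ?_⟩
  intro ε hε
  set a := 2 * Real.pi * r with hadef
  set δ := min (ε / 2) (ε * a ^ 2 / 2) with hδ
  have hδ0 : 0 < δ := lt_min (by positivity) (by positivity)
  have hδ1 : δ < ε := (min_le_left _ _).trans_lt (by linarith)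
  have hδ2 : δ / a ^ 2 < ε := by
    rw [div_lt_iff₀ (by positivity)]
    refine (min_le_right _ _).trans_lt ?_
    have : 0 < ε * a ^ 2 := by positivity
    linarith
  have hs : 0 < Real.sqrt (a ^ 2 + δ) := Real.sqrt_pos.mpr (by positivity)
  have hsq : Real.sqrt (a ^ 2 + δ) ^ 2 = a ^ 2 + δ := Real.sq_sqrt (by positivity)
  have hlt : a < Real.sqrt (a ^ 2 + δ) := by
    apply Real.lt_sqrt_of_sq_lt
    linarith
  have hdiff : ∀ x, (metric R r (Real.sqrt (a ^ 2 + δ)) hr hR hs).coeff x
      = (metric R r a hr hR ha).coeff x + Matrix.diagonal ![δ, 0] := by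
    intro x
    simp only [metric]
    rw [Matrix.diagonal_add]
    congr 1
    funext i
    fin_cases i
    · simp [hsq]
    · simp
  refine ⟨metric R r (Real.sqrt (a ^ 2 + δ)) hr hR hs, ?_, ⟨Matrix.diagonal ![δ, 0], hdiff, ?_⟩,
    not_immersible hr hR hs hlt⟩
  · intro x
    rw [hdiff, add_sub_cancel_left]
    have hb := bfun_pos hr hR (x 0)
    have e1 : (metric R r a hr hR ha).coeff x = Matrix.diagonal ![a ^ 2, bfun R r (x 0) ^ 2] := rfl
    have e2 : (Matrix.diagonal ![a ^ 2, bfun R r (x 0) ^ 2])⁻¹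
        = Matrix.diagonal ![(a ^ 2)⁻¹, (bfun R r (x 0) ^ 2)⁻¹] := by
      apply Matrix.inv_eq_right_inv
      rw [Matrix.diagonal_mul_diagonal, ← Matrix.diagonal_one]
      congr 1
      funext i
      fin_cases i
      · simp; field_simp
      · simp; field_simp
    unfold tensorNorm
    rw [e1, e2, Matrix.diagonal_mul_diagonal, Matrix.diagonal_mul_diagonal,
      Matrix.diagonal_mul_diagonal, Matrix.trace_diagonal, Fin.sum_univ_two]
    have e3 : (a ^ 2)⁻¹ * δ * (a ^ 2)⁻¹ * δ = (δ / a ^ 2) ^ 2 := by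
      field_simp
    simp only [Matrix.cons_val_zero, Matrix.cons_val_one]
    rw [mul_zero, add_zero, e3, Real.sqrt_sq (by positivity)]
    exact hδ2
  · intro i j
    fin_cases i <;> fin_cases j
    · simp [Matrix.diagonal, abs_of_pos hδ0, hδ1]
    · simpa [Matrix.diagonal] using hε
    · simpa [Matrix.diagonal] using hε
    · simpa [Matrix.diagonal] using hε

end Pool.Agent.Results.MP_665542_gt.StretchedTorus
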